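import Mathlib

/-!
# Sets with few components; semialgebraic sets of bounded complexity have few components
-/

open Set Filter Topology

namespace FS

/-- The component of `p` in `X`. -/
abbrev cc {α : Type} [TopologicalSpace α] (X : Set α) (p : α) : Set α := connectedComponentIn X p

section few

variable {α : Type} [TopologicalSpace α] {X Y : Set α} {x y : α} {β : ℕ}

/-- At most `β` points lie pairwise in different components of `X`. -/
def Few (X : Set α) (β : ℕ) : Prop :=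
  ∀ T : Finset α, (∀ x ∈ T, x ∈ X) → (∀ x ∈ T, ∀ y ∈ T, y ∈ cc X x → x = y) → T.card ≤ β

theorem cc_base (h : y ∈ cc X x) : x ∈ X := connectedComponentIn_nonempty_iff.1 ⟨y, h⟩

theorem cc_symm (h : y ∈ cc X x) : x ∈ cc X y := by
  rw [cc, ← connectedComponentIn_eq h]
  exact mem_connectedComponentIn (cc_base h)

theorem cc_trans {w : α} (h : y ∈ cc X x) (h' : w ∈ cc X y) : w ∈ cc X x := by
  rwa [cc, connectedComponentIn_eq h]

theorem Few.mono {β' : ℕ} (h : Few X β) (h' : β ≤ β') : Few X β' :=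
  fun T a b => (h T a b).trans h'

theorem Few.reps [Nonempty α] (h : Few X β) :
    ∃ z : Fin β → α, ∀ x ∈ X, ∃ k, x ∈ cc X (z k) := by
  classical
  let P : ℕ → Prop := fun n => ∃ T : Finset α, (∀ x ∈ T, x ∈ X) ∧
    (∀ x ∈ T, ∀ y ∈ T, y ∈ cc X x → x = y) ∧ T.card = n
  obtain ⟨T, h1, h2, h3⟩ : P (Nat.findGreatest P β) :=
    Nat.findGreatest_spec (Nat.zero_le β) ⟨∅, by simp, by simp, rfl⟩
  have h4 := h T h1 h2
  refine ⟨fun k => if hk : k.1 < T.card then (T.equivFin.symm ⟨k.1, hk⟩).1 else Classical.ofNonempty,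
    fun x hx => ?_⟩
  obtain ⟨t, ht, h5⟩ : ∃ t ∈ T, x ∈ cc X t := by
    by_contra hn
    push Not at hn
    have hxT : x ∉ T := fun h6 => hn x h6 (mem_connectedComponentIn hx)
    have a1 : ∀ y ∈ insert x T, y ∈ X := fun y hy => by
      rcases Finset.mem_insert.1 hy with rfl | hy
      exacts [hx, h1 y hy]
    have a2 : ∀ y ∈ insert x T, ∀ w ∈ insert x T, w ∈ cc X y → y = w := fun y hy w hw e => by
      rcases Finset.mem_insert.1 hy with b | b <;> rcases Finset.mem_insert.1 hw with b' | b'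
      exacts [b.trans b'.symm, absurd (b ▸ cc_symm e) (hn w b'), absurd (b' ▸ e) (hn y b),
        h2 y b w b' e]
    have a3 := h _ a1 a2
    rw [Finset.card_insert_of_notMem hxT] at a3
    exact Nat.findGreatest_is_greatest (P := P) (n := β) (k := T.card + 1) (by omega) a3
      ⟨_, a1, a2, Finset.card_insert_of_notMem hxT⟩
  refine ⟨⟨(T.equivFin ⟨t, ht⟩).1, (T.equivFin ⟨t, ht⟩).2.trans_le h4⟩, ?_⟩
  simpa using h5

/-- A union of parts with few components. -/
theorem Few.cover {κ : Type} (s : Finset κ) (Y : κ → Set α) (hY : ∀ k ∈ s, Y k ⊆ X)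
    (hX : ∀ x ∈ X, ∃ k ∈ s, x ∈ Y k) (h : ∀ k ∈ s, Few (Y k) β) : Few X (s.card * β) := by
  classical
  intro T h1 h2
  refine (Finset.card_le_card (t := s.biUnion fun k => T.filter (· ∈ Y k)) fun x hx => ?_).trans
    (Finset.card_biUnion_le_card_mul _ _ _ fun k hk => h k hk _ (fun x hx => ?_)
      fun x hx y hy e => ?_)
  · obtain ⟨k, hk, h3⟩ := hX x (h1 x hx)
    exact Finset.mem_biUnion.2 ⟨k, hk, Finset.mem_filter.2 ⟨hx, h3⟩⟩
  · exact (Finset.mem_filter.1 hx).2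
  · exact h2 x (Finset.mem_filter.1 hx).1 y (Finset.mem_filter.1 hy).1
      (connectedComponentIn_mono x (hY k hk) e)


theorem Few.of_mem (h : ∀ x ∈ X, Few X β) : Few X β := fun T h1 h2 => by
  rcases T.eq_empty_or_nonempty with rfl | ⟨x, hx⟩
  exacts [Nat.zero_le _, h x (h1 x hx) T h1 h2]

theorem Few.union {β' : ℕ} (h : Few X β) (h' : Few Y β') : Few (X ∪ Y) (β + β') := by
  classical
  intro T h1 h2
  rw [← Finset.card_filter_add_card_filter_not (s := T) (· ∈ X)]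
  refine add_le_add (h _ (fun x hx => (Finset.mem_filter.1 hx).2) fun x hx y hy e => ?_)
    (h' _ (fun x hx => (h1 x (Finset.mem_filter.1 hx).1).resolve_left (Finset.mem_filter.1 hx).2)
      fun x hx y hy e => ?_)
  · exact h2 x (Finset.mem_filter.1 hx).1 y (Finset.mem_filter.1 hy).1
      (connectedComponentIn_mono x subset_union_left e)
  · exact h2 x (Finset.mem_filter.1 hx).1 y (Finset.mem_filter.1 hy).1
      (connectedComponentIn_mono x subset_union_right e)

theorem Few.image {γ : Type} [TopologicalSpace γ] {f : α → γ} (h : Few X β)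
    (hf : ContinuousOn f X) : Few (f '' X) β := by
  classical
  intro T h1 h2
  rcases T.eq_empty_or_nonempty with rfl | ⟨y₀, hy₀⟩
  · exact Nat.zero_le _
  obtain ⟨x₀, -⟩ := h1 y₀ hy₀
  have : Nonempty α := ⟨x₀⟩
  choose! s a1 a2 using h1
  rw [← Finset.card_image_of_injOn (f := s) fun y hy y' hy' e => by rw [← a2 y hy, e, a2 y' hy']]
  refine h _ (fun x hx => ?_) fun x hx x' hx' e => ?_
  · obtain ⟨y, hy, rfl⟩ := Finset.mem_image.1 hx
    exact a1 y hy
  obtain ⟨y, hy, rfl⟩ := Finset.mem_image.1 hx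
  obtain ⟨y', hy', rfl⟩ := Finset.mem_image.1 hx'
  rw [h2 y hy y' hy' ((isPreconnected_connectedComponentIn.image f
    (hf.mono (connectedComponentIn_subset _ _))).subset_connectedComponentIn
      ⟨_, mem_connectedComponentIn (a1 y hy), a2 y hy⟩
      (image_mono (connectedComponentIn_subset _ _)) ⟨_, e, a2 y' hy'⟩)]

/-- An isolated point is its own component. -/
theorem cc_isolated [T1Space α] (h : ∀ᶠ w in 𝓝 x, w ∈ X → w = x) (hy : y ∈ cc X x) : y = x := by
  obtain ⟨U, h1, h2, h3⟩ := mem_nhds_iff.1 h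
  by_contra hn
  obtain ⟨w, b1, b2, b3⟩ := isPreconnected_connectedComponentIn (x := x) (F := X) U {x}ᶜ h2
    isOpen_compl_singleton (fun w _ => by
      by_cases e : w = x
      exacts [Or.inl (e ▸ h3), Or.inr e]) ⟨x, mem_connectedComponentIn (cc_base hy), h3⟩ ⟨y, hy, hn⟩
  exact b3 (h1 b2 (connectedComponentIn_subset _ _ b1))

/-- There are at most `β` isolated points. -/
theorem Few.isolated [T1Space α] (h : Few X β) (T : Finset α)
    (hT : ∀ x ∈ T, x ∈ X ∧ ∀ᶠ w in 𝓝 x, w ∈ X → w = x) : T.card ≤ β :=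
  h T (fun x hx => (hT x hx).1) fun x hx _ _ e => (cc_isolated (hT x hx).2 e).symm

theorem enc_le {α γ : Type} (f : α → γ) (s : Set α) (N : ℕ)
    (h : ∀ T : Finset α, (∀ x ∈ T, x ∈ s) → InjOn f T → T.card ≤ N) : (f '' s).encard ≤ N := by
  classical
  by_contra hn
  obtain ⟨t, h1, h2⟩ := exists_subset_encard_eq (s := f '' s) (k := (N + 1 : ℕ))
    (by exact_mod_cast Order.add_one_le_of_lt (not_le.1 hn))
  obtain ⟨t, rfl⟩ := (finite_of_encard_eq_coe h2).exists_finset_coe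
  obtain ⟨u, a1, a2, rfl⟩ := Finset.exists_subset_injOn_image_eq_of_surjOn (f := f) s t h1
  rw [encard_coe_eq_coe_finsetCard, Finset.card_image_of_injOn a2, Nat.cast_inj] at h2
  have := h u a1 a2
  omega

/-- The set of isolated points of `X` has at most `β` elements. -/
theorem Few.isolated_encard [T1Space α] (h : Few X β) (hY : ∀ x ∈ Y, x ∈ X ∧ ∀ᶠ w in 𝓝 x, w ∈ X → w = x) :
    Y.encard ≤ β := by
  have := enc_le id Y β fun T h1 _ => h.isolated T fun x hx => hY x (h1 x hx)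
  rwa [image_id] at this

/-- The set of components has at most `β` elements. -/
theorem Few.encard_cc (h : Few X β) : (cc X '' X).encard ≤ β :=
  enc_le _ _ _ fun T h1 h2 => h T h1 fun _ hx _ hy e => h2 hx hy (connectedComponentIn_eq e)

theorem cpt_small {α : Type} [TopologicalSpace α] {K : Set α} (hK : IsCompact K) {f : α → ℝ}
    (hf : Continuous f) (h : ∀ x ∈ K, 0 < f x) : ∀ᶠ η in 𝓝[>] (0 : ℝ), ∀ x ∈ K, η < f x := by
  obtain ⟨a, ha, h1⟩ := hK.exists_forall_le' hf.continuousOn h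
  filter_upwards [Ioo_mem_nhdsGT ha] with η hη x hx
  exact hη.2.trans_le (h1 x hx)

/-- Points in different components of a compact zero set stay separated in a thin thickening. -/
theorem thick {α : Type} [TopologicalSpace α] [T2Space α] {K : Set α} (hK : IsCompact K)
    {e : α → ℝ} (he : Continuous e) (h0 : ∀ y, 0 ≤ e y) {x y : α} (hx : x ∈ K ∩ {w | e w = 0})
    (hy : y ∈ K ∩ {w | e w = 0}) (h : y ∉ cc (K ∩ {w | e w = 0}) x) :
    ∀ᶠ ε in 𝓝[>] (0 : ℝ), y ∉ cc (K ∩ {w | e w ≤ ε}) x := by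
  have h1 : IsCompact (K ∩ {w | e w = 0}) := hK.inter_right (isClosed_eq he continuous_const)
  have := isCompact_iff_compactSpace.1 h1
  obtain ⟨Z, hZ⟩ : ∃ Z : {s : Set ↥(K ∩ {w | e w = 0}) // IsClopen s ∧ ⟨x, hx⟩ ∈ s},
      ⟨y, hy⟩ ∉ Z.1 := by
    by_contra hn
    push Not at hn
    refine h ?_
    rw [cc, connectedComponentIn_eq_image hx, connectedComponent_eq_iInter_isClopen]
    exact ⟨_, mem_iInter.2 hn, rfl⟩
  obtain ⟨U, V, a1, a2, a3, a4, a5⟩ := SeparatedNhds.of_isCompact_isCompact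
    (Z.2.1.isClosed.isCompact.image continuous_subtype_val)
    (Z.2.1.compl.isClosed.isCompact.image continuous_subtype_val)
    (disjoint_image_of_injective Subtype.val_injective disjoint_compl_right)
  filter_upwards [cpt_small (hK.diff (a1.union a2)) he fun w hw => lt_of_le_of_ne (h0 w) fun e0 => by
    by_cases hz : (⟨w, hw.1, e0.symm⟩ : ↥(K ∩ {w | e w = 0})) ∈ Z.1
    exacts [hw.2 (Or.inl (a3 ⟨_, hz, rfl⟩)), hw.2 (Or.inr (a4 ⟨_, hz, rfl⟩))]] with ε hε hc
  refine Set.disjoint_left.1 a5 (isPreconnected_connectedComponentIn.subset_left_of_subset_union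
    a1 a2 a5 (fun w hw => ?_) ⟨x, mem_connectedComponentIn (cc_base hc), a3 ⟨_, Z.2.2, rfl⟩⟩ hc)
    (a4 ⟨_, hZ, rfl⟩)
  by_contra hn
  have h2 := connectedComponentIn_subset _ _ hw
  exact (hε w ⟨h2.1, hn⟩).not_ge h2.2

end few

section pol

variable {d : ℕ}

/-- Affine functions. -/
def Af (d : ℕ) : Submodule ℝ ((Fin d → ℝ) → ℝ) :=
  Submodule.span ℝ (insert 1 (range fun (j : Fin d) (x : Fin d → ℝ) => x j))

theorem af_one : (1 : (Fin d → ℝ) → ℝ) ∈ Af d := Submodule.subset_span (mem_insert _ _)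

theorem af_co (j : Fin d) : (fun x : Fin d → ℝ => x j) ∈ Af d :=
  Submodule.subset_span (mem_insert_of_mem _ ⟨j, rfl⟩)

theorem af_mono {N M : ℕ} (h : N ≤ M) : Af d ^ N ≤ Af d ^ M :=
  pow_le_pow_right' (Submodule.one_le.2 af_one) h

theorem af_const (N : ℕ) (r : ℝ) : (fun _ : Fin d → ℝ => r) ∈ Af d ^ N :=
  af_mono (Nat.zero_le N) (by
    rw [pow_zero]
    exact Submodule.algebraMap_mem r)

theorem af_mul {N M : ℕ} {f f' : (Fin d → ℝ) → ℝ} (h : f ∈ Af d ^ N) (h' : f' ∈ Af d ^ M) :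
    f * f' ∈ Af d ^ (N + M) := by
  rw [pow_add]
  exact Submodule.mul_mem_mul h h'

theorem af_prod {κ : Type} (s : Finset κ) (f : κ → (Fin d → ℝ) → ℝ) (n : κ → ℕ)
    (h : ∀ k ∈ s, f k ∈ Af d ^ n k) : ∏ k ∈ s, f k ∈ Af d ^ ∑ k ∈ s, n k := by
  classical
  induction s using Finset.induction_on with
  | empty => exact af_const 0 1
  | insert a s ha ih =>
    rw [Finset.prod_insert ha, Finset.sum_insert ha]
    exact af_mul (h a (Finset.mem_insert_self _ _)) (ih fun k hk => h k (Finset.mem_insert_of_mem hk))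

theorem af_pow {N : ℕ} {f : (Fin d → ℝ) → ℝ} (h : f ∈ Af d ^ N) (k : ℕ) :
    f ^ k ∈ Af d ^ (N * k) := by
  rw [pow_mul]
  exact Submodule.pow_mem_pow _ h k

theorem af_aff (f : (Fin d → ℝ) →ᵃ[ℝ] ℝ) : ⇑f ∈ Af d := by
  have e : ⇑f = f 0 • (1 : (Fin d → ℝ) → ℝ) +
      ∑ j, f.linear (fun k => if j = k then 1 else 0) • fun x : Fin d → ℝ => x j := by
    funext x
    have h := f.map_vadd 0 x
    rw [vadd_eq_add, vadd_eq_add, add_zero, LinearMap.pi_apply_eq_sum_univ] at h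
    simp only [Pi.add_apply, Pi.smul_apply, Pi.one_apply, Finset.sum_apply, smul_eq_mul] at h ⊢
    rw [h, mul_one, add_comm]
    exact congrArg _ (Finset.sum_congr rfl fun j _ => mul_comm _ _)
  rw [e]
  exact add_mem (Submodule.smul_mem _ _ af_one)
    (Submodule.sum_mem _ fun j _ => Submodule.smul_mem _ _ (af_co j))

theorem af_eval {N : ℕ} {Q : MvPolynomial (Fin d) ℝ} (h : Q.totalDegree ≤ N) :
    (fun x => MvPolynomial.eval x Q) ∈ Af d ^ N := by
  have e : (fun x => MvPolynomial.eval x Q) =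
      ∑ m ∈ Q.support, Q.coeff m • ∏ j, (fun x : Fin d → ℝ => x j) ^ m j := by
    funext x
    rw [MvPolynomial.eval_eq']
    simp only [Finset.sum_apply, Pi.smul_apply, Finset.prod_apply, Pi.pow_apply, smul_eq_mul]
  rw [e]
  refine Submodule.sum_mem _ fun m hm => Submodule.smul_mem _ _ (af_mono ?_
    (af_prod _ _ (fun j => m j) fun j _ => Submodule.pow_mem_pow _ (af_co j) _))
  have h1 := (MvPolynomial.le_totalDegree hm).trans h
  rwa [Finsupp.sum_fintype _ _ fun _ => rfl] at h1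

theorem af_comp {N : ℕ} (ψ : (Fin d → ℝ) →ᵃ[ℝ] (Fin d → ℝ)) {f : (Fin d → ℝ) → ℝ}
    (h : f ∈ Af d ^ N) : (fun x => f (ψ x)) ∈ Af d ^ N := by
  induction h using Submodule.pow_induction_on_left' with
  | algebraMap r => exact af_const 0 r
  | add f f' i _ _ a b => exact add_mem a b
  | mem_mul m hm i f _ a =>
    rw [pow_succ']
    refine Submodule.mul_mem_mul (m := fun x => m (ψ x)) ?_ a
    induction hm using Submodule.span_induction with
    | mem m hm =>
      rcases hm with rfl | ⟨j, rfl⟩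
      · exact af_one
      · have h := af_aff ((AffineMap.proj (k := ℝ) (V := fun _ : Fin d => ℝ)
          (P := fun _ : Fin d => ℝ) j).comp ψ)
        exact h
    | zero => exact zero_mem _
    | add m m' _ _ a b => exact add_mem a b
    | smul r m _ a => exact Submodule.smul_mem _ r a

theorem af_line {m : (Fin d → ℝ) → ℝ} (hm : m ∈ Af d) (v : Fin d → ℝ) :
    Continuous m ∧ ∃ r : ℝ, ∀ x, HasDerivAt (fun t : ℝ => m (x + t • v)) r 0 := by
  induction hm using Submodule.span_induction with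
  | mem m hm =>
    rcases hm with rfl | ⟨j, rfl⟩
    · exact ⟨continuous_const, 0, fun x => hasDerivAt_const _ _⟩
    · refine ⟨continuous_apply j, v j, fun x => ?_⟩
      simpa using ((hasDerivAt_id (0 : ℝ)).mul_const (v j)).const_add (x j)
  | zero => exact ⟨continuous_const, 0, fun x => hasDerivAt_const _ _⟩
  | add m m' _ _ a b =>
    obtain ⟨a1, r, a2⟩ := a
    obtain ⟨b1, r', b2⟩ := b
    exact ⟨a1.add b1, r + r', fun x => (a2 x).add (b2 x)⟩
  | smul s m _ a =>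
    obtain ⟨a1, r, a2⟩ := a
    exact ⟨a1.const_smul s, s * r, fun x => (a2 x).const_mul s⟩

theorem af_der {N : ℕ} {f : (Fin d → ℝ) → ℝ} (h : f ∈ Af d ^ N) (v : Fin d → ℝ) :
    Continuous f ∧ ∃ f' ∈ Af d ^ N, ∀ x, HasDerivAt (fun t : ℝ => f (x + t • v)) (f' x) 0 := by
  induction h using Submodule.pow_induction_on_left' with
  | algebraMap r => exact ⟨continuous_const, 0, zero_mem _, fun x => hasDerivAt_const _ _⟩
  | add f f' i _ _ a b =>
    obtain ⟨a1, r, a2, a3⟩ := a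
    obtain ⟨b1, r', b2, b3⟩ := b
    exact ⟨a1.add b1, r + r', add_mem a2 b2, fun x => (a3 x).add (b3 x)⟩
  | mem_mul m hm i f hf a =>
    obtain ⟨a1, f', a2, a3⟩ := a
    obtain ⟨b1, r, b2⟩ := af_line hm v
    refine ⟨b1.mul a1, r • f + m * f', add_mem (Submodule.smul_mem _ _ (af_mono i.le_succ hf)) ?_,
      fun x => ?_⟩
    · rw [pow_succ']
      exact Submodule.mul_mem_mul hm a2
    · have h := (b2 x).mul (a3 x)
      simp only [zero_smul, add_zero] at h
      exact h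

theorem af_cont {N : ℕ} {f : (Fin d → ℝ) → ℝ} (h : f ∈ Af d ^ N) : Continuous f :=
  (af_der h 0).1

/-- Monomials. -/
def mon (a : Fin d → ℕ) : (Fin d → ℝ) → ℝ := fun x => ∏ j, x j ^ a j

theorem af_span (N : ℕ) : Af d ^ N ≤ Submodule.span ℝ (mon '' {a : Fin d → ℕ | ∀ j, a j ≤ N}) := by
  induction N with
  | zero =>
    rw [pow_zero, Submodule.one_le]
    exact Submodule.subset_span ⟨0, fun _ => le_rfl, funext fun x => by simp [mon]⟩
  | succ N ih =>
    rw [pow_succ']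
    refine (mul_le_mul_right ih _).trans ?_
    rw [Af, Submodule.span_mul_span]
    refine Submodule.span_mono ?_
    rintro _ ⟨u, hu, _, ⟨a, ha, rfl⟩, rfl⟩
    rcases hu with rfl | ⟨j, rfl⟩
    · exact ⟨a, fun j => (ha j).trans N.le_succ, (one_mul _).symm⟩
    · refine ⟨a + Pi.single j 1, fun k => ?_, funext fun x => ?_⟩
      · have := ha k
        by_cases e : k = j
        · subst e
          simpa using this
        · simp only [Pi.add_apply, Pi.single_eq_of_ne e]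
          omega
      · simp only [mon, Pi.add_apply, pow_add, Finset.prod_mul_distrib, Pi.mul_apply]
        rw [mul_comm, Finset.prod_eq_single j (fun k _ e => by rw [Pi.single_eq_of_ne e, pow_zero])
          (fun h => absurd (Finset.mem_univ j) h), Pi.single_eq_same, pow_one]

theorem af_dep {N : ℕ} {κ : Type} [Fintype κ] (v : κ → (Fin d → ℝ) → ℝ) (hv : ∀ k, v k ∈ Af d ^ N)
    (hc : (N + 1) ^ d < Fintype.card κ) :
    ∃ c : κ → ℝ, (∀ x, ∑ k, c k * v k x = 0) ∧ ∃ k, c k ≠ 0 := by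
  classical
  have h : ¬ LinearIndependent ℝ v := fun hl => by
    have h1 := linearIndependent_le_span_aux' v hl
      ↑((Fintype.piFinset fun _ : Fin d => Finset.range (N + 1)).image mon) (by
        rintro _ ⟨k, rfl⟩
        refine Submodule.span_mono ?_ (af_span N (hv k))
        rintro _ ⟨a, ha, rfl⟩
        exact Finset.mem_coe.2 (Finset.mem_image_of_mem _ (Fintype.mem_piFinset.2 fun j =>
          Finset.mem_range.2 (Nat.lt_succ_of_le (ha j)))))
    have h2 := Finset.card_image_le (s := Fintype.piFinset fun _ : Fin d => Finset.range (N + 1))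
      (f := mon)
    simp only [Fintype.card_piFinset, Finset.card_range, Finset.prod_const, Finset.card_univ,
      Fintype.card_fin, Finset.coe_sort_coe, Fintype.card_coe] at h1 h2
    omega
  obtain ⟨c, h1, h2⟩ := Fintype.not_linearIndependent_iff.1 h
  refine ⟨c, fun x => ?_, h2⟩
  simpa using congrFun h1 x

/-- A relation between the values of `p` and one coordinate. -/
theorem fib_one {D : ℕ} (p : Fin d → (Fin d → ℝ) → ℝ) (hp : ∀ k, p k ∈ Af d ^ D) (j : Fin d) :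
    ∃ A : MvPolynomial (Fin d) ℝ, A ≠ 0 ∧ ∀ a, MvPolynomial.eval a A ≠ 0 →
      ∃ Z : Finset ℝ, Z.card ≤ (d * D + 1) ^ d ∧ ∀ x, (∀ k, p k x = a k) → x j ∈ Z := by
  classical
  set M := (d * D + 1) ^ d with hM
  obtain ⟨c, h1, ⟨a₀, t₀⟩, h2⟩ := af_dep (N := D * (d * M) + M)
    (κ := (Fin d → Fin (M + 1)) × Fin (M + 1))
    (fun u => (∏ k, p k ^ (u.1 k).1) * (fun x => x j) ^ u.2.1) (fun u => af_mono (by
      have h1 : ∑ k, D * (u.1 k).1 ≤ ∑ _k : Fin d, D * M :=
        Finset.sum_le_sum fun k _ => Nat.mul_le_mul_left _ (Nat.le_of_lt_succ (u.1 k).2)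
      rw [Finset.sum_const, Finset.card_univ, Fintype.card_fin, smul_eq_mul] at h1
      exact add_le_add (h1.trans (le_of_eq (by ring))) (Nat.le_of_lt_succ u.2.2))
      (af_mul (af_prod _ _ (fun k => D * (u.1 k).1) fun k _ => af_pow (hp k) _)
        (Submodule.pow_mem_pow _ (af_co j) u.2.1))) (by
      rw [Fintype.card_prod, Fintype.card_fun, Fintype.card_fin, Fintype.card_fin]
      calc (D * (d * M) + M + 1) ^ d ≤ ((d * D + 1) * (M + 1)) ^ d :=
            Nat.pow_le_pow_left (by nlinarith [Nat.zero_le (d * D)]) _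
        _ = (M + 1) ^ d * M := by rw [mul_pow, mul_comm]
        _ < _ := Nat.mul_lt_mul_of_pos_left M.lt_succ_self (by positivity))
  let e : (Fin d → Fin (M + 1)) → Fin d →₀ ℕ := fun a =>
    Finsupp.equivFunOnFinite.symm fun k => (a k).1
  have he : Function.Injective e := fun a b h => funext fun k =>
    Fin.ext (congrFun (Finsupp.equivFunOnFinite.symm.injective h) k)
  refine ⟨∑ a, MvPolynomial.monomial (e a) (c (a, t₀)), fun h0 => h2 ?_, fun y hy => ?_⟩
  · have h3 := congrArg (MvPolynomial.coeff (e a₀)) h0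
    rwa [MvPolynomial.coeff_sum, Finset.sum_eq_single a₀ (fun b _ hb => by
      rw [MvPolynomial.coeff_monomial, if_neg fun h => hb (he h)]) (by simp),
      MvPolynomial.coeff_monomial, if_pos rfl, MvPolynomial.coeff_zero] at h3
  let G : Polynomial ℝ := ∑ t : Fin (M + 1), Polynomial.monomial t.1
    (∑ a : Fin d → Fin (M + 1), c (a, t) * ∏ k, y k ^ (a k).1)
  have hG : G ≠ 0 := fun h0 => hy (by
    have h3 := congrArg (Polynomial.coeff · t₀.1) h0
    simp only [G, Polynomial.finsetSum_coeff, Polynomial.coeff_monomial, Polynomial.coeff_zero,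
      Fin.val_inj, Finset.sum_ite_eq', Finset.mem_univ, if_true] at h3
    rw [map_sum, ← h3]
    refine Finset.sum_congr rfl fun a _ => ?_
    rw [MvPolynomial.eval_monomial, Finsupp.prod_fintype _ _ fun _ => pow_zero _]
    rfl)
  refine ⟨G.roots.toFinset, (Multiset.toFinset_card_le _).trans ((Polynomial.card_roots' G).trans
    (Polynomial.natDegree_sum_le_of_forall_le _ _ fun t _ =>
      (Polynomial.natDegree_monomial_le _).trans (Nat.le_of_lt_succ t.2))), fun x hx => ?_⟩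
  rw [Multiset.mem_toFinset, Polynomial.mem_roots hG, Polynomial.IsRoot.def, ← h1 x,
    Fintype.sum_prod_type_right, Polynomial.eval_finsetSum]
  refine Finset.sum_congr rfl fun t _ => ?_
  rw [Polynomial.eval_monomial, Finset.sum_mul]
  refine Finset.sum_congr rfl fun a _ => ?_
  simp only [Pi.mul_apply, Finset.prod_apply, Pi.pow_apply, hx, mul_assoc]

/-- A small value with few preimages. -/
theorem fib {D : ℕ} (p : Fin d → (Fin d → ℝ) → ℝ) (hp : ∀ k, p k ∈ Af d ^ D) {ε : ℝ} (hε : 0 < ε) :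
    ∃ a : Fin d → ℝ, (∀ j, |a j| < ε) ∧ ∀ T : Finset (Fin d → ℝ), (∀ x ∈ T, ∀ k, p k x = a k) →
      T.card ≤ ((d * D + 1) ^ d) ^ d := by
  classical
  choose A h0 hA using fib_one p hp
  obtain ⟨a, ha, h1⟩ : ∃ a ∈ Set.pi univ fun _ : Fin d => Ioo (-ε) ε,
      MvPolynomial.eval a (∏ j, A j) ≠ 0 := by
    by_contra hn
    push Not at hn
    exact Finset.prod_ne_zero_iff.2 (fun j _ => h0 j) (MvPolynomial.funext_set _
      (fun _ => Ioo_infinite (by linarith)) fun x hx => (hn x hx).trans (map_zero _).symm)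
  rw [map_prod] at h1
  choose Z h2 h3 using fun j => hA j a (Finset.prod_ne_zero_iff.1 h1 j (Finset.mem_univ j))
  refine ⟨a, fun j => abs_lt.2 (ha j trivial), fun T hT => ?_⟩
  refine (Finset.card_le_card (t := Fintype.piFinset Z) fun x hx =>
    Fintype.mem_piFinset.2 fun j => h3 j x (hT x hx)).trans ?_
  rw [Fintype.card_piFinset]
  exact (Finset.prod_le_pow_card _ _ _ fun j _ => h2 j).trans (by simp)

/-- The bound for the number of components. -/
def bet (d N : ℕ) : ℕ := ((d * (N * 2 + 1 * 2) + 1) ^ d) ^ d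

theorem af_sq (r : ℝ) : (fun x : Fin d → ℝ => r - ∑ j, x j ^ 2) ∈ Af d ^ (1 * 2) := by
  have e : (fun x : Fin d → ℝ => r - ∑ j, x j ^ 2) =
      (fun _ => r) - ∑ j, (fun x : Fin d → ℝ => x j) ^ 2 := by
    funext x
    simp
  rw [e]
  exact sub_mem (af_const _ r) (Submodule.sum_mem _ fun j _ => Submodule.pow_mem_pow _ (af_co j) 2)

theorem cpt_sq (r : ℝ) : IsCompact {x : Fin d → ℝ | ∑ j, x j ^ 2 ≤ r} := by
  refine (isCompact_univ_pi fun _ : Fin d => isCompact_Icc (a := -(r + 1)) (b := r + 1)).of_isClosed_subset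
    (isClosed_le (by fun_prop) continuous_const) fun x hx j _ => abs_le.1 ?_
  have h1 : x j ^ 2 ≤ r := (Finset.single_le_sum (f := fun j => x j ^ 2)
    (fun _ _ => sq_nonneg _) (Finset.mem_univ j)).trans hx
  nlinarith [sq_nonneg (|x j| - 1), sq_abs (x j), sq_nonneg (x j)]

theorem few_max {h : (Fin d → ℝ) → ℝ} (hc : Continuous h) {r m : ℝ} {a x : Fin d → ℝ}
    (hr : ∀ y, 0 < h y → ∑ j, y j ^ 2 ≤ r) (hx : m ≤ h x) (hm : 0 < m)
    (hl : ∀ y : Fin d → ℝ, ∑ j, y j ^ 2 ≤ r → |∑ j, a j * y j| < m / 2) :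
    ∃ y ∈ cc {x | 0 < h x} x, IsLocalMax (fun y => h y - ∑ j, a j * y j) y := by
  have hO : IsOpen {x | 0 < h x} := isOpen_lt continuous_const hc
  have hx0 : x ∈ {x | 0 < h x} := hm.trans_le hx
  have hx' : x ∈ cc {x | 0 < h x} x := mem_connectedComponentIn hx0
  have b1 : closure (cc {x | 0 < h x} x) ⊆ {x | ∑ j, x j ^ 2 ≤ r} :=
    closure_minimal (fun y hy => hr y (connectedComponentIn_subset {x | 0 < h x} x hy))
      (cpt_sq r).isClosed
  have b0 : Continuous fun y : Fin d → ℝ => h y - ∑ j, a j * y j := by fun_prop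
  obtain ⟨y, hy, hmax⟩ := ((cpt_sq r).of_isClosed_subset isClosed_closure b1).exists_isMaxOn
    ⟨x, subset_closure hx'⟩ b0.continuousOn
  have b2 : h x - ∑ j, a j * x j ≤ h y - ∑ j, a j * y j := hmax (subset_closure hx')
  have b3 : y ∈ {x | 0 < h x} := by
    have c1 := abs_lt.1 (hl x (hr x hx0))
    have c2 := abs_lt.1 (hl y (b1 hy))
    change 0 < h y
    linarith [c1.2, c2.1]
  obtain ⟨w, w1, w2⟩ := mem_closure_iff.1 hy _ hO.connectedComponentIn
    (mem_connectedComponentIn b3)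
  have b4 : y ∈ cc {x | 0 < h x} x := cc_trans w2 (cc_symm w1)
  exact ⟨y, b4, hmax.isLocalMax (mem_of_superset (hO.connectedComponentIn.mem_nhds b4)
    subset_closure)⟩

theorem few_der {h : (Fin d → ℝ) → ℝ} {a y : Fin d → ℝ} {k : Fin d} {s : ℝ}
    (h1 : IsLocalMax (fun y => h y - ∑ j, a j * y j) y)
    (h2 : HasDerivAt (fun t : ℝ => h (y + t • Pi.single k 1)) s 0) : s = a k := by
  have b6 : Tendsto (fun t : ℝ => y + t • (Pi.single k 1 : Fin d → ℝ)) (𝓝 0) (𝓝 y) :=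
    Continuous.tendsto' (by fun_prop) _ _ (by simp)
  have b5 : IsLocalMax (fun t : ℝ => h (y + t • Pi.single k 1) -
      ∑ j, a j * (y + t • (Pi.single k 1 : Fin d → ℝ)) j) 0 := by
    filter_upwards [b6.eventually h1] with t ht
    rwa [zero_smul, add_zero]
  have b7 : HasDerivAt (fun t : ℝ => ∑ j, a j * (y + t • (Pi.single k 1 : Fin d → ℝ)) j) (a k) 0 := by
    have e : (fun t : ℝ => ∑ j, a j * (y + t • (Pi.single k 1 : Fin d → ℝ)) j) =
        fun t => ∑ j, a j * y j + t * a k := by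
      funext t
      simp [mul_add, Finset.sum_add_distrib, Pi.single_apply, mul_comm]
    rw [e]
    simpa using ((hasDerivAt_id (0 : ℝ)).mul_const (a k)).const_add (∑ j, a j * y j)
  exact sub_eq_zero.1 (b5.hasDerivAt_eq_zero (h2.sub b7))

theorem few_ball {N : ℕ} {h : (Fin d → ℝ) → ℝ} (hm : h ∈ Af d ^ N) {r : ℝ}
    (hr : ∀ y, 0 < h y → ∑ j, y j ^ 2 ≤ r) : Few {x | 0 < h x} (((d * N + 1) ^ d) ^ d) := by
  classical
  intro T h1 h2
  have hc := af_cont hm
  choose p hp hp' using fun j : Fin d => (af_der hm (Pi.single j 1)).2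
  obtain ⟨m, hm0, hm1⟩ := T.finite_toSet.isCompact.exists_forall_le' hc.continuousOn h1
  obtain ⟨B, hB⟩ := (cpt_sq (d := d) r).exists_bound_of_continuousOn
    (f := fun x => ∑ j, |x j|) (by fun_prop)
  have hB' : ∀ x : Fin d → ℝ, ∑ j, x j ^ 2 ≤ r → ∑ j, |x j| ≤ |B| := fun x hx =>
    (le_abs_self _).trans ((hB x hx).trans (le_abs_self B))
  obtain ⟨a, ha, hT⟩ := fib p hp (ε := m / (2 * (|B| + 1))) (by positivity)
  have hl : ∀ x : Fin d → ℝ, ∑ j, x j ^ 2 ≤ r → |∑ j, a j * x j| < m / 2 := fun x hx => by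
    have b1 : |∑ j, a j * x j| ≤ m / (2 * (|B| + 1)) * ∑ j, |x j| := by
      rw [Finset.mul_sum]
      refine (Finset.abs_sum_le_sum_abs _ _).trans (Finset.sum_le_sum fun j _ => ?_)
      rw [abs_mul]
      exact mul_le_mul_of_nonneg_right (ha j).le (abs_nonneg _)
    refine b1.trans_lt ((mul_le_mul_of_nonneg_left (hB' x hx) (by positivity)).trans_lt ?_)
    rw [div_mul_eq_mul_div, div_lt_div_iff₀ (by positivity) two_pos]
    nlinarith [abs_nonneg B]
  choose! y hy hy' using fun x (hx : x ∈ T) => few_max hc hr (hm1 x hx) hm0 hl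
  rw [← Finset.card_image_of_injOn (f := y) fun x hx x' hx' e =>
    h2 x hx x' hx' (cc_trans (hy x hx) (cc_symm (e ▸ hy x' hx')))]
  refine hT _ fun w hw k => ?_
  obtain ⟨x, hx, rfl⟩ := Finset.mem_image.1 hw
  exact few_der (hy' x hx) (hp' k _)

theorem few_ne {N : ℕ} {Q : (Fin d → ℝ) → ℝ} (hQ : Q ∈ Af d ^ N) : Few {x | Q x ≠ 0} (bet d N) := by
  unfold bet
  intro T h1 h2
  obtain ⟨r, hr⟩ : ∃ r : ℝ, ∀ x ∈ T, ∑ j, x j ^ 2 < r :=
    ⟨∑ x ∈ T, ∑ j, x j ^ 2 + 1, fun x hx => lt_of_le_of_lt (Finset.single_le_sum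
      (f := fun x : Fin d → ℝ => ∑ j, x j ^ 2) (fun _ _ => Finset.sum_nonneg fun _ _ => sq_nonneg _)
        hx) (lt_add_one _)⟩
  obtain ⟨h, hm, hpos⟩ : ∃ h ∈ Af d ^ (N * 2 + 1 * 2), ∀ x, 0 < h x ↔ Q x ≠ 0 ∧ ∑ j, x j ^ 2 < r := by
    refine ⟨_, af_mul (af_pow hQ 2) (af_sq r), fun x => ?_⟩
    rw [Pi.mul_apply, Pi.pow_apply]
    refine ⟨fun a => ⟨fun b => ?_, sub_pos.1 ((mul_pos_iff_of_pos_left ?_).1 a)⟩,
      fun a => mul_pos (sq_pos_iff.2 a.1) (sub_pos.2 a.2)⟩
    · rw [b, zero_pow two_ne_zero, zero_mul] at a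
      exact lt_irrefl _ a
    · exact lt_of_le_of_ne (sq_nonneg _) (left_ne_zero_of_mul a.ne').symm
  have h3 := few_ball hm (r := r) fun y hy => ((hpos y).1 hy).2.le
  have h4 : {x | 0 < h x} ⊆ {x | Q x ≠ 0} := fun w hw => ((hpos w).1 hw).1
  exact h3 T (fun x hx => (hpos x).2 ⟨h1 x hx, hr x hx⟩) fun x hx y hy e =>
    h2 x hx y hy (connectedComponentIn_mono x h4 e)

/-- Open sets that are unions of components of the complement of a hypersurface. -/
def Bas (N : ℕ) (W : Set (Fin d → ℝ)) : Prop :=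
  IsOpen W ∧ ∃ Q ∈ Af d ^ N, W ⊆ {x | Q x ≠ 0} ∧ ∀ x ∈ W, cc {x | Q x ≠ 0} x ⊆ W

theorem bas_pos {N : ℕ} {w : (Fin d → ℝ) → ℝ} (h : w ∈ Af d ^ N) : Bas N {x | 0 < w x} :=
  ⟨isOpen_lt continuous_const (af_cont h), w, h, fun _ hx => ne_of_gt hx, fun x hx _ hy =>
    isPreconnected_connectedComponentIn.lt_of_ne (af_cont h).continuousOn
      (fun _ hw => connectedComponentIn_subset _ _ hw)
      ⟨x, mem_connectedComponentIn (ne_of_gt hx), hx⟩ hy⟩

theorem Bas.inter {N M : ℕ} {W W' : Set (Fin d → ℝ)} (h : Bas N W) (h' : Bas M W') :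
    Bas (N + M) (W ∩ W') := by
  obtain ⟨a1, Q, a2, a3, a4⟩ := h
  obtain ⟨b1, Q', b2, b3, b4⟩ := h'
  exact ⟨a1.inter b1, Q * Q', af_mul a2 b2, fun x hx => mul_ne_zero (a3 hx.1) (b3 hx.2),
    fun x hx y hy => ⟨a4 x hx.1 (connectedComponentIn_mono x (fun _ => left_ne_zero_of_mul) hy),
      b4 x hx.2 (connectedComponentIn_mono x (fun _ => right_ne_zero_of_mul) hy)⟩⟩

theorem Bas.mono {N M : ℕ} {W : Set (Fin d → ℝ)} (h : Bas N W) (h' : N ≤ M) : Bas M W := by
  obtain ⟨a1, Q, a2, a3⟩ := h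
  exact ⟨a1, Q, af_mono h' a2, a3⟩

theorem bas_all {κ : Type} {N : ℕ} (s : Finset κ) (W : κ → Set (Fin d → ℝ))
    (h : ∀ k ∈ s, Bas N (W k)) : Bas (s.card * N) {x | ∀ k ∈ s, x ∈ W k} := by
  classical
  induction s using Finset.induction_on with
  | empty => simpa using bas_pos (af_const (d := d) 0 1)
  | insert a s ha ih =>
    have h1 := (h a (Finset.mem_insert_self _ _)).inter
      (ih fun k hk => h k (Finset.mem_insert_of_mem hk))
    rw [Finset.card_insert_of_notMem ha, add_mul, one_mul, add_comm]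
    simpa only [Finset.forall_mem_insert, ofPred_and, ofPred_mem_eq] using h1

theorem Bas.few {N : ℕ} {W : Set (Fin d → ℝ)} (h : Bas N W) : Few W (bet d N) := by
  obtain ⟨-, Q, h1, h2, h3⟩ := h
  exact fun T a1 a2 => few_ne h1 T (fun x hx => h2 (a1 x hx)) fun x hx y hy e => a2 x hx y hy
    (isPreconnected_connectedComponentIn.subset_connectedComponentIn
      (mem_connectedComponentIn (cc_base e)) (h3 x (a1 x hx)) e)

theorem few_eq {κ : Type} (A : Finset κ) {N M : ℕ} {e : (Fin d → ℝ) → ℝ} (he : e ∈ Af d ^ N)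
    (h0 : ∀ y, 0 ≤ e y) {w : κ → (Fin d → ℝ) → ℝ} (hw : ∀ k, w k ∈ Af d ^ M) :
    Few {y | e y = 0 ∧ ∀ k ∈ A, 0 < w k y} (bet d (1 * 2 + N + A.card * M)) := by
  intro S h1 h2
  obtain ⟨r, hr⟩ : ∃ r : ℝ, ∀ x ∈ S, ∑ j, x j ^ 2 < r :=
    ⟨∑ x ∈ S, ∑ j, x j ^ 2 + 1, fun x hx => lt_of_le_of_lt (Finset.single_le_sum
      (f := fun x : Fin d → ℝ => ∑ j, x j ^ 2) (fun _ _ => Finset.sum_nonneg fun _ _ => sq_nonneg _)
        hx) (lt_add_one _)⟩
  have E4 : ∀ᶠ η in 𝓝[>] (0 : ℝ), ∀ k ∈ A, ∀ x ∈ (S : Set (Fin d → ℝ)), η < w k x :=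
    (eventually_all_finset A).2 fun k hk =>
      cpt_small S.finite_toSet.isCompact (af_cont (hw k)) fun x hx => (h1 x hx).2 k hk
  obtain ⟨η, hη, a4⟩ := (eventually_mem_nhdsWithin.and E4).exists
  replace hη : 0 < η := hη
  let K : Set (Fin d → ℝ) := {x | ∑ j, x j ^ 2 ≤ r} ∩ {x | ∀ k ∈ A, η ≤ w k x}
  have hK : IsCompact K := by
    refine (cpt_sq r).inter_right ?_
    simp only [ofPred_forall]
    exact isClosed_iInter fun k => isClosed_iInter fun _ =>
      isClosed_le continuous_const (af_cont (hw k))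
  have hS : ∀ x ∈ S, x ∈ K ∩ {y | e y = 0} := fun x hx =>
    ⟨⟨(hr x hx).le, fun k hk => (a4 k hk x hx).le⟩, (h1 x hx).1⟩
  have hY : K ∩ {y | e y = 0} ⊆ {y | e y = 0 ∧ ∀ k ∈ A, 0 < w k y} :=
    fun u hu => ⟨hu.2, fun k hk => hη.trans_le (hu.1.2 k hk)⟩
  have E5 : ∀ᶠ ε in 𝓝[>] (0 : ℝ), ∀ x ∈ S, ∀ y ∈ S, x ≠ y → y ∉ cc (K ∩ {u | e u ≤ ε}) x :=
    (eventually_all_finset S).2 fun x hx => (eventually_all_finset S).2 fun y hy =>
      eventually_imp_distrib_left.2 fun ne => thick hK (af_cont he) h0 (hS x hx) (hS y hy) fun b =>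
        ne (h2 x hx y hy (connectedComponentIn_mono x hY b))
  obtain ⟨ε, hε, a5⟩ := (eventually_mem_nhdsWithin.and E5).exists
  replace hε : 0 < ε := hε
  have hW := ((bas_pos (af_sq (d := d) r)).inter (bas_pos (sub_mem (af_const N ε) he))).inter
    (bas_all A _ fun k _ => bas_pos (sub_mem (hw k) (af_const M η)))
  refine hW.few S (fun x hx => ⟨⟨sub_pos.2 (hr x hx), (sub_pos (a := ε)).2 ((h1 x hx).1.trans_lt hε)⟩,
    fun k hk => (sub_pos (a := w k x)).2 (a4 k hk x hx)⟩) fun x hx y hy b => by_contra fun ne =>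
      a5 x hx y hy ne (connectedComponentIn_mono x ?_ b)
  exact fun u hu => ⟨⟨((sub_pos (a := r)).1 hu.1.1).le,
    fun k hk => ((sub_pos (a := w k u)).1 (hu.2 k hk)).le⟩, ((sub_pos (a := ε)).1 hu.1.2).le⟩

theorem few_sign {κ : Type} [Fintype κ] {D : ℕ} {p : κ → (Fin d → ℝ) → ℝ} (hp : ∀ k, p k ∈ Af d ^ D)
    (σ : κ → SignType) :
    Few {y | ∀ k, SignType.sign (p k y) = σ k} (bet d (1 * 2 + D * 2 + Fintype.card κ * D)) := by
  have h1 := few_eq (Finset.univ.filter fun k => σ k ≠ 0) (N := D * 2) (M := D)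
    (e := ∑ k ∈ Finset.univ.filter fun k => σ k = 0, p k ^ 2) (w := fun k => (σ k : ℝ) • p k)
    (Submodule.sum_mem _ fun k _ => af_pow (hp k) 2)
    (fun y => by rw [Finset.sum_apply]; exact Finset.sum_nonneg fun _ _ => sq_nonneg _)
    fun k => Submodule.smul_mem _ _ (hp k)
  have e : {y | ∀ k, SignType.sign (p k y) = σ k} = {y | (∑ k ∈ Finset.univ.filter fun k => σ k = 0,
      p k ^ 2) y = 0 ∧ ∀ k ∈ Finset.univ.filter fun k => σ k ≠ 0, 0 < ((σ k : ℝ) • p k) y} := by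
    ext y
    rw [mem_ofPred_eq, mem_ofPred_eq, Finset.sum_apply,
      (Finset.sum_eq_zero_iff_of_nonneg (f := fun k => (p k ^ 2) y) fun _ _ => sq_nonneg _)]
    simp only [Finset.mem_filter, Finset.mem_univ, true_and, ← forall_and, Pi.smul_apply,
      smul_eq_mul, Pi.pow_apply, sq_eq_zero_iff]
    refine forall_congr' fun k => ?_
    rcases σ k with _ | _ | _ <;> simp [sign_eq_neg_one_iff, sign_eq_one_iff]
  rw [e]
  refine h1.mono ?_
  have := Finset.card_le_univ (Finset.univ.filter fun k => σ k ≠ 0)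
  unfold bet
  gcongr

end pol

section gen

variable {E E' : Type} [NormedAddCommGroup E] [NormedSpace ℝ E] [NormedAddCommGroup E']
  [NormedSpace ℝ E'] {D D' : ℕ} {f f' : E → ℝ}

/-- Polynomial functions of degree at most `D`. -/
def Pf (E : Type) [NormedAddCommGroup E] [NormedSpace ℝ E] (D : ℕ) : Submodule ℝ (E → ℝ) :=
  Submodule.span ℝ (range fun f : E →ᵃ[ℝ] ℝ => ⇑f) ^ D

theorem pf_aff (g : E →ᵃ[ℝ] ℝ) : (fun x => g x) ∈ Pf E 1 := by
  rw [Pf, pow_one]
  exact Submodule.subset_span ⟨g, rfl⟩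

theorem pf_lin (g : E →ₗ[ℝ] ℝ) : (fun x => g x) ∈ Pf E 1 := pf_aff g.toAffineMap

theorem pf_clm (g : E →L[ℝ] ℝ) : (fun x => g x) ∈ Pf E 1 := pf_lin g.toLinearMap

theorem pf_mono (h : D ≤ D') (hf : f ∈ Pf E D) : f ∈ Pf E D' := by
  have h1 : (1 : E → ℝ) ∈ Submodule.span ℝ (range fun f : E →ᵃ[ℝ] ℝ => ⇑f) :=
    Submodule.subset_span ⟨AffineMap.const ℝ E 1, rfl⟩
  have h2 : Pf E D ≤ Pf E D' := pow_le_pow_right' (Submodule.one_le.2 h1) h
  exact h2 hf

theorem pf_const (D : ℕ) (r : ℝ) : (fun _ : E => r) ∈ Pf E D :=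
  pf_mono (Nat.zero_le D) (by
    rw [Pf, pow_zero]
    exact Submodule.algebraMap_mem r)

theorem pf_add (h : f ∈ Pf E D) (h' : f' ∈ Pf E D) : (fun x => f x + f' x) ∈ Pf E D := add_mem h h'

theorem pf_sub (h : f ∈ Pf E D) (h' : f' ∈ Pf E D) : (fun x => f x - f' x) ∈ Pf E D := sub_mem h h'

theorem pf_neg (h : f ∈ Pf E D) : (fun x => -f x) ∈ Pf E D := neg_mem h

theorem pf_smul (r : ℝ) (h : f ∈ Pf E D) : (fun x => r * f x) ∈ Pf E D := Submodule.smul_mem _ r h

theorem pf_mul (h : f ∈ Pf E D) (h' : f' ∈ Pf E D') : (fun x => f x * f' x) ∈ Pf E (D + D') := by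
  rw [Pf, pow_add]
  exact Submodule.mul_mem_mul h h'

theorem pf_pow (h : f ∈ Pf E D) (k : ℕ) : (fun x => f x ^ k) ∈ Pf E (D * k) := by
  rw [Pf, pow_mul]
  exact Submodule.pow_mem_pow _ h k

theorem pf_sum {κ : Type} (s : Finset κ) {g : κ → E → ℝ} (h : ∀ k ∈ s, g k ∈ Pf E D) :
    (fun x => ∑ k ∈ s, g k x) ∈ Pf E D := by
  rw [← Finset.sum_fn]
  exact Submodule.sum_mem _ h

theorem pf_prod' {κ : Type} (s : Finset κ) {g : κ → E → ℝ} (n : κ → ℕ)
    (h : ∀ k ∈ s, g k ∈ Pf E (n k)) : (fun x => ∏ k ∈ s, g k x) ∈ Pf E (∑ k ∈ s, n k) := by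
  classical
  induction s using Finset.induction_on with
  | empty => exact pf_const 0 1
  | insert a s ha ih =>
    simp only [Finset.prod_insert ha, Finset.sum_insert ha]
    exact pf_mul (h a (Finset.mem_insert_self _ _)) (ih fun k hk => h k (Finset.mem_insert_of_mem hk))

theorem pf_prod {κ : Type} (s : Finset κ) {g : κ → E → ℝ} (h : ∀ k ∈ s, g k ∈ Pf E D) :
    (fun x => ∏ k ∈ s, g k x) ∈ Pf E (s.card * D) := by
  simpa using pf_prod' s (fun _ => D) h

theorem pf_det {κ : Type} [Fintype κ] [DecidableEq κ] {M : E → Matrix κ κ ℝ}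
    (h : ∀ i j, (fun x => M x i j) ∈ Pf E D) : (fun x => (M x).det) ∈ Pf E (Fintype.card κ * D) := by
  simp only [Matrix.det_apply']
  exact pf_sum _ fun σ _ => pf_smul _ (pf_prod _ fun i _ => h _ _)

/-- A polynomial evaluated at polynomial functions. -/
theorem pf_eval {κ : Type} [Fintype κ] {Q : MvPolynomial κ ℝ} (h : Q.totalDegree ≤ D')
    {g : κ → E → ℝ} (hg : ∀ k, g k ∈ Pf E D) :
    (fun x => MvPolynomial.eval (fun k => g k x) Q) ∈ Pf E (D * D') := by
  simp only [MvPolynomial.eval_eq']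
  refine pf_sum _ fun m hm => pf_smul _ (pf_mono ?_ (pf_prod' _ (fun k => D * m k) fun k _ =>
    pf_pow (hg k) _))
  have h1 := (MvPolynomial.le_totalDegree hm).trans h
  rw [Finsupp.sum_fintype _ _ fun _ => rfl] at h1
  rw [← Finset.mul_sum]
  exact Nat.mul_le_mul_left _ h1

/-- Composition with a map whose affine coordinates are polynomial. -/
theorem pf_comp {ψ : E' → E} (hψ : ∀ g : E →ᵃ[ℝ] ℝ, (fun x => g (ψ x)) ∈ Pf E' D')
    (h : f ∈ Pf E D) : (fun x => f (ψ x)) ∈ Pf E' (D' * D) := by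
  induction h using Submodule.pow_induction_on_left' with
  | algebraMap r => exact pf_const _ r
  | add f f' i _ _ a b => exact add_mem a b
  | mem_mul m hm i f _ a =>
    rw [Nat.mul_succ, add_comm]
    refine pf_mul (f := fun x => m (ψ x)) ?_ a
    induction hm using Submodule.span_induction with
    | mem m hm =>
      obtain ⟨g, rfl⟩ := hm
      exact hψ g
    | zero => exact zero_mem _
    | add m m' _ _ a b => exact add_mem a b
    | smul r m _ a => exact Submodule.smul_mem _ r a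

theorem pf_comp_aff (ψ : E' →ᵃ[ℝ] E) (h : f ∈ Pf E D) : (fun x => f (ψ x)) ∈ Pf E' D := by
  simpa using pf_comp (fun g => pf_aff (g.comp ψ)) h

theorem pf_comp_lin (ψ : E' →ₗ[ℝ] E) (h : f ∈ Pf E D) : (fun x => f (ψ x)) ∈ Pf E' D :=
  pf_comp_aff ψ.toAffineMap h

theorem pf_fst (h : f ∈ Pf E D) : (fun x : E × E' => f x.1) ∈ Pf (E × E') D :=
  pf_comp_lin (LinearMap.fst ℝ E E') h

theorem pf_snd (h : f ∈ Pf E D) : (fun x : E' × E => f x.2) ∈ Pf (E' × E) D :=
  pf_comp_lin (LinearMap.snd ℝ E' E) h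

theorem pf_proj {κ : Type} [Fintype κ] (k : κ) (h : f ∈ Pf E D) :
    (fun x : κ → E => f (x k)) ∈ Pf (κ → E) D :=
  pf_comp_lin (LinearMap.proj (R := ℝ) (φ := fun _ : κ => E) k) h

theorem pf_id : (fun x : ℝ => x) ∈ Pf ℝ 1 := pf_lin LinearMap.id

theorem pf_co {κ : Type} [Fintype κ] (k : κ) : (fun x : κ → ℝ => x k) ∈ Pf (κ → ℝ) 1 :=
  pf_proj k pf_id

theorem pf_euc {κ : Type} [Fintype κ] (k : κ) :
    (fun x : EuclideanSpace ℝ κ => x k) ∈ Pf (EuclideanSpace ℝ κ) 1 :=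
  pf_clm (EuclideanSpace.proj k)

theorem pf_af {d : ℕ} {f : (Fin d → ℝ) → ℝ} (h : f ∈ Pf (Fin d → ℝ) D) : f ∈ Af d ^ D := by
  refine pow_le_pow_left' (Submodule.span_le.2 ?_) D h
  rintro _ ⟨g, rfl⟩
  exact af_aff g

variable [FiniteDimensional ℝ E]

theorem pf_smooth (h : f ∈ Pf E D) :
    ContDiff ℝ ⊤ f ∧ ∀ v, (fun x => fderiv ℝ f x v) ∈ Pf E D := by
  induction h using Submodule.pow_induction_on_left' with
  | algebraMap r =>
    refine ⟨contDiff_const, fun v => ?_⟩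
    have e : (algebraMap ℝ (E → ℝ) r) = fun _ => r := rfl
    simpa [e] using pf_const (E := E) 0 0
  | add f f' i _ _ a b =>
    refine ⟨a.1.add b.1, fun v => ?_⟩
    simp only [fderiv_add (a.1.differentiable (by simp) _) (b.1.differentiable (by simp) _)]
    exact pf_add (a.2 v) (b.2 v)
  | mem_mul m hm i f hf a =>
    obtain ⟨g, rfl⟩ : ∃ g : E →ᵃ[ℝ] ℝ, ⇑g = m := by
      induction hm using Submodule.span_induction with
      | mem m hm => exact hm
      | zero => exact ⟨0, rfl⟩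
      | add m m' _ _ a b =>
        obtain ⟨g, rfl⟩ := a
        obtain ⟨g', rfl⟩ := b
        exact ⟨g + g', rfl⟩
      | smul r m _ a =>
        obtain ⟨g, rfl⟩ := a
        exact ⟨r • g, rfl⟩
    let G : E →ᴬ[ℝ] ℝ := ⟨g, g.continuous_of_finiteDimensional⟩
    have h1 : ContDiff ℝ ⊤ g := G.contDiff
    have h2 : ∀ x, HasFDerivAt g G.contLinear x := fun x => G.hasFDerivAt
    refine ⟨h1.mul a.1, fun v => ?_⟩
    simp only [fderiv_mul (h1.differentiable (by simp) _) (a.1.differentiable (by simp) _),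
      (h2 _).fderiv]
    refine pf_add (f := fun x => g x * fderiv ℝ f x v) (f' := fun x => f x * G.contLinear v) ?_ ?_
    · exact pf_mono (by omega) (pf_mul (pf_aff g) (a.2 v))
    · exact pf_mono (by omega) (pf_mul hf (pf_const 0 _))

theorem pf_contDiff (h : f ∈ Pf E D) : ContDiff ℝ ⊤ f := (pf_smooth h).1

theorem pf_cont (h : f ∈ Pf E D) : Continuous f := (pf_smooth h).1.continuous

theorem pf_fderiv (h : f ∈ Pf E D) (v : E) : (fun x => fderiv ℝ f x v) ∈ Pf E D := (pf_smooth h).2 v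

/-- The bound for the number of components. -/
def beta (N c : ℕ) : ℕ := 3 ^ c * bet N (1 * 2 + c * 2 + c * c)

theorem beta_mono {N N' c c' : ℕ} (h : N ≤ N') (h' : c ≤ c') : beta N c ≤ beta N' c' := by
  unfold beta bet
  gcongr <;> first | omega | exact Nat.one_le_pow _ _ (Nat.succ_pos _)

/-- Any set described by the signs of boundedly many polynomials has few components. -/
theorem few_sa {N c : ℕ} (hN : Module.finrank ℝ E ≤ N) {κ : Type} [Fintype κ]
    (hc : Fintype.card κ ≤ c) {p : κ → E → ℝ} (hp : ∀ k, p k ∈ Pf E c) {X : Set E}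
    (hX : ∀ x ∈ X, ∀ y, (∀ k, SignType.sign (p k y) = SignType.sign (p k x)) → y ∈ X) :
    Few X (beta N c) := by
  classical
  let φ : (Fin (Module.finrank ℝ E) → ℝ) ≃L[ℝ] E := ContinuousLinearEquiv.ofFinrankEq (by simp)
  have h1 : Few (φ ⁻¹' X) _ := Few.cover
    (Finset.univ.filter fun σ : κ → SignType => ∃ x ∈ X, ∀ k, SignType.sign (p k x) = σ k)
    (fun σ => {y | ∀ k, SignType.sign (p k (φ y)) = σ k})
    (fun σ hσ y hy => by
      obtain ⟨x, a1, a2⟩ := (Finset.mem_filter.1 hσ).2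
      exact hX x a1 _ fun k => (hy k).trans (a2 k).symm)
    (fun y hy => ⟨fun k => SignType.sign (p k (φ y)),
      Finset.mem_filter.2 ⟨Finset.mem_univ _, _, hy, fun _ => rfl⟩, fun _ => rfl⟩)
    fun σ _ => few_sign (fun k => pf_af (pf_comp_lin φ.toLinearEquiv.toLinearMap (hp k))) σ
  have h2 := h1.image φ.continuous.continuousOn
  rw [image_preimage_eq _ φ.surjective] at h2
  refine h2.mono (le_trans ?_ (beta_mono hN le_rfl))
  refine Nat.mul_le_mul ((Finset.card_le_univ _).trans ?_) (by unfold bet; gcongr)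
  rw [Fintype.card_fun]
  exact Nat.pow_le_pow_right (by decide) hc

omit [FiniteDimensional ℝ E]

/-- Semialgebraic sets of complexity at most `c`. -/
def SA (c : ℕ) (X : Set E) : Prop :=
  ∃ s : Finset (E → ℝ), s.card ≤ c ∧ (∀ p ∈ s, p ∈ Pf E c) ∧
    ∀ x ∈ X, ∀ y, (∀ p ∈ s, SignType.sign (p y) = SignType.sign (p x)) → y ∈ X

variable {c c' : ℕ} {X Y : Set E}

theorem SA.few [FiniteDimensional ℝ E] (h : SA c X) {N : ℕ} (hN : Module.finrank ℝ E ≤ N) :
    Few X (beta N c) := by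
  obtain ⟨s, h1, h2, h3⟩ := h
  exact few_sa hN (κ := s) (p := fun k => k.1) (by simpa using h1) (fun k => h2 k.1 k.2)
    fun x hx y h => h3 x hx y fun p hp => h ⟨p, hp⟩

theorem SA.mono (h : SA c X) (h' : c ≤ c') : SA c' X := by
  obtain ⟨s, h1, h2, h3⟩ := h
  exact ⟨s, h1.trans h', fun p hp => pf_mono h' (h2 p hp), h3⟩

theorem sa_sign (h : f ∈ Pf E D) (Φ : SignType → Prop) : SA (D + 1) {x | Φ (SignType.sign (f x))} :=
  ⟨{f}, by simp, fun p hp => Finset.mem_singleton.1 hp ▸ pf_mono D.le_succ h, fun x hx y e => by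
    rwa [mem_ofPred_eq, e f (Finset.mem_singleton_self f)]⟩

theorem sa_lt (h : f ∈ Pf E D) (h' : f' ∈ Pf E D) : SA (D + 1) {x | f x < f' x} := by
  simpa [sign_eq_one_iff] using sa_sign (pf_sub h' h) (· = 1)

theorem sa_le (h : f ∈ Pf E D) (h' : f' ∈ Pf E D) : SA (D + 1) {x | f x ≤ f' x} := by
  simpa [sign_nonneg_iff] using sa_sign (pf_sub h' h) (0 ≤ ·)

theorem sa_eq (h : f ∈ Pf E D) (h' : f' ∈ Pf E D) : SA (D + 1) {x | f x = f' x} := by
  simpa [sub_eq_zero] using sa_sign (pf_sub h h') (· = 0)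

theorem sa_const (P : Prop) : SA 0 {_x : E | P} := ⟨∅, le_rfl, by simp, fun _ hx _ _ => hx⟩

theorem SA.compl (h : SA c X) : SA c Xᶜ := by
  obtain ⟨s, h1, h2, h3⟩ := h
  exact ⟨s, h1, h2, fun x hx y e hy => hx (h3 y hy x fun p hp => (e p hp).symm)⟩

theorem sa_ne (h : f ∈ Pf E D) (h' : f' ∈ Pf E D) : SA (D + 1) {x | f x ≠ f' x} := (sa_eq h h').compl

theorem SA.inter (h : SA c X) (h' : SA c' Y) : SA (c + c') (X ∩ Y) := by
  classical
  obtain ⟨s, h1, h2, h3⟩ := h
  obtain ⟨s', a1, a2, a3⟩ := h'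
  exact ⟨s ∪ s', (Finset.card_union_le _ _).trans (add_le_add h1 a1), fun p hp =>
    (Finset.mem_union.1 hp).elim (fun e => pf_mono le_self_add (h2 p e))
      fun e => pf_mono le_add_self (a2 p e), fun x hx y e =>
    ⟨h3 x hx.1 y fun p hp => e p (Finset.mem_union_left _ hp),
      a3 x hx.2 y fun p hp => e p (Finset.mem_union_right _ hp)⟩⟩

theorem SA.union (h : SA c X) (h' : SA c' Y) : SA (c + c') (X ∪ Y) := by
  simpa [compl_inter] using (h.compl.inter h'.compl).compl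

theorem SA.and {P Q : E → Prop} (h : SA c {x | P x}) (h' : SA c' {x | Q x}) :
    SA (c + c') {x | P x ∧ Q x} := h.inter h'

theorem SA.or {P Q : E → Prop} (h : SA c {x | P x}) (h' : SA c' {x | Q x}) :
    SA (c + c') {x | P x ∨ Q x} := h.union h'

theorem SA.not {P : E → Prop} (h : SA c {x | P x}) : SA c {x | ¬ P x} := h.compl

theorem SA.imp {P Q : E → Prop} (h : SA c {x | P x}) (h' : SA c' {x | Q x}) :
    SA (c + c') {x | P x → Q x} := by
  simpa only [imp_iff_not_or] using h.not.or h'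

theorem SA.iff {P Q : E → Prop} (h : SA c {x | P x}) (h' : SA c' {x | Q x}) :
    SA (c + c' + (c' + c)) {x | P x ↔ Q x} := by
  simpa only [iff_def] using (h.imp h').and (h'.imp h)

theorem sa_all {κ : Type} (s : Finset κ) {P : κ → E → Prop} (h : ∀ k ∈ s, SA c {x | P k x}) :
    SA (s.card * c) {x | ∀ k ∈ s, P k x} := by
  classical
  induction s using Finset.induction_on with
  | empty => simpa using sa_const (E := E) True
  | insert a s ha ih =>
    have h1 := (h a (Finset.mem_insert_self _ _)).and (ih fun k hk => h k (Finset.mem_insert_of_mem hk))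
    rw [Finset.card_insert_of_notMem ha, add_mul, one_mul, add_comm]
    simpa only [Finset.forall_mem_insert] using h1

theorem sa_ex {κ : Type} (s : Finset κ) {P : κ → E → Prop} (h : ∀ k ∈ s, SA c {x | P k x}) :
    SA (s.card * c) {x | ∃ k ∈ s, P k x} := by
  simpa using (sa_all s fun k hk => (h k hk).not).not

theorem sa_all' {κ : Type} [Fintype κ] {P : κ → E → Prop} (h : ∀ k, SA c {x | P k x}) :
    SA (Fintype.card κ * c) {x | ∀ k, P k x} := by
  simpa using sa_all Finset.univ fun k _ => h k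

theorem sa_ex' {κ : Type} [Fintype κ] {P : κ → E → Prop} (h : ∀ k, SA c {x | P k x}) :
    SA (Fintype.card κ * c) {x | ∃ k, P k x} := by
  simpa using sa_ex Finset.univ fun k _ => h k

theorem SA.comp_aff (h : SA c X) (ψ : E' →ᵃ[ℝ] E) : SA c {x | ψ x ∈ X} := by
  classical
  obtain ⟨s, h1, h2, h3⟩ := h
  refine ⟨s.image fun p x => p (ψ x), Finset.card_image_le.trans h1, fun p hp => ?_,
    fun x hx y e => h3 _ hx _ fun p hp => e _ (Finset.mem_image_of_mem _ hp)⟩
  obtain ⟨p, a, rfl⟩ := Finset.mem_image.1 hp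
  exact pf_comp_aff ψ (h2 p a)

/-- A family of polynomial functions of bounded degree. -/
def UP {Λ : Type} (f : Λ → E → ℝ) : Prop := ∃ D, ∀ l, f l ∈ Pf E D

/-- A family of semialgebraic conditions of bounded complexity. -/
def US {Λ : Type} (P : Λ → E → Prop) : Prop := ∃ c, ∀ l, SA c {x | P l x}

variable {Λ : Type} {F G : Λ → E → ℝ} {P Q : Λ → E → Prop}

theorem US.few [FiniteDimensional ℝ E] (h : US P) : ∃ β, ∀ l, Few {x | P l x} β := by
  obtain ⟨c, h⟩ := h
  exact ⟨_, fun l => (h l).few le_rfl⟩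

theorem UP.two (h : UP F) (h' : UP G) : ∃ D, (∀ l, F l ∈ Pf E D) ∧ ∀ l, G l ∈ Pf E D := by
  obtain ⟨D, h⟩ := h
  obtain ⟨D', h'⟩ := h'
  exact ⟨D + D', fun l => pf_mono le_self_add (h l), fun l => pf_mono le_add_self (h' l)⟩

theorem up_const (r : Λ → ℝ) : UP fun l (_ : E) => r l := ⟨0, fun l => pf_const 0 (r l)⟩

theorem up_aff (g : Λ → E →ᵃ[ℝ] ℝ) : UP fun l x => g l x := ⟨1, fun l => pf_aff (g l)⟩

theorem up_of (h : f ∈ Pf E D) : UP fun (_ : Λ) x => f x := ⟨D, fun _ => h⟩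

theorem UP.add (h : UP F) (h' : UP G) : UP fun l x => F l x + G l x := by
  obtain ⟨D, a, b⟩ := h.two h'
  exact ⟨D, fun l => pf_add (a l) (b l)⟩

theorem UP.sub (h : UP F) (h' : UP G) : UP fun l x => F l x - G l x := by
  obtain ⟨D, a, b⟩ := h.two h'
  exact ⟨D, fun l => pf_sub (a l) (b l)⟩

theorem UP.neg (h : UP F) : UP fun l x => -F l x := h.imp fun _ a l => pf_neg (a l)

theorem UP.mul (h : UP F) (h' : UP G) : UP fun l x => F l x * G l x := by
  obtain ⟨D, a, b⟩ := h.two h'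
  exact ⟨D + D, fun l => pf_mul (a l) (b l)⟩

theorem UP.pow (h : UP F) (k : ℕ) : UP fun l x => F l x ^ k := by
  obtain ⟨D, a⟩ := h
  exact ⟨D * k, fun l => pf_pow (a l) k⟩

theorem UP.re {Λ' : Type} (h : UP F) (r : Λ' → Λ) : UP fun l => F (r l) := h.imp fun _ a l => a (r l)

theorem UP.sum {κ : Λ → Type} (s : ∀ l, Finset (κ l)) {H : ∀ l, κ l → E → ℝ}
    (h : UP fun u : Σ l, κ l => H u.1 u.2) : UP fun l x => ∑ k ∈ s l, H l k x :=
  h.imp fun _ a l => pf_sum _ fun k _ => a ⟨l, k⟩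

theorem UP.prod {κ : Λ → Type} (s : ∀ l, Finset (κ l)) {a : ℕ} (hs : ∀ l, (s l).card ≤ a)
    {H : ∀ l, κ l → E → ℝ} (h : UP fun u : Σ l, κ l => H u.1 u.2) :
    UP fun l x => ∏ k ∈ s l, H l k x := by
  obtain ⟨D, h⟩ := h
  exact ⟨a * D, fun l => pf_mono (Nat.mul_le_mul_right _ (hs l)) (pf_prod _ fun k _ => h ⟨l, k⟩)⟩

theorem UP.det {κ : Type} [Fintype κ] [DecidableEq κ] {M : Λ → E → Matrix κ κ ℝ}
    (h : UP fun (u : Λ × κ × κ) x => M u.1 x u.2.1 u.2.2) : UP fun l x => (M l x).det := by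
  obtain ⟨D, h⟩ := h
  exact ⟨_, fun l => pf_det fun i j => h (l, i, j)⟩

theorem UP.comp_aff (h : UP F) (ψ : Λ → E' →ᵃ[ℝ] E) : UP fun l x => F l (ψ l x) :=
  h.imp fun _ a l => pf_comp_aff (ψ l) (a l)

theorem UP.fderiv [FiniteDimensional ℝ E] (h : UP F) (v : Λ → E) :
    UP fun l x => fderiv ℝ (F l) x (v l) := h.imp fun _ a l => pf_fderiv (a l) (v l)

theorem UP.lt (h : UP F) (h' : UP G) : US fun l x => F l x < G l x := by
  obtain ⟨D, a, b⟩ := h.two h'
  exact ⟨_, fun l => sa_lt (a l) (b l)⟩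

theorem UP.le (h : UP F) (h' : UP G) : US fun l x => F l x ≤ G l x := by
  obtain ⟨D, a, b⟩ := h.two h'
  exact ⟨_, fun l => sa_le (a l) (b l)⟩

theorem UP.eq (h : UP F) (h' : UP G) : US fun l x => F l x = G l x := by
  obtain ⟨D, a, b⟩ := h.two h'
  exact ⟨_, fun l => sa_eq (a l) (b l)⟩

theorem UP.sign (h : UP F) (Φ : Λ → SignType → Prop) : US fun l x => Φ l (SignType.sign (F l x)) := by
  obtain ⟨D, a⟩ := h
  exact ⟨_, fun l => sa_sign (a l) (Φ l)⟩

theorem us_const (R : Λ → Prop) : US fun l (_ : E) => R l := ⟨0, fun l => sa_const (R l)⟩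

theorem US.not (h : US P) : US fun l x => ¬ P l x := h.imp fun _ a l => (a l).not

theorem UP.ne (h : UP F) (h' : UP G) : US fun l x => F l x ≠ G l x := (h.eq h').not

theorem US.and (h : US P) (h' : US Q) : US fun l x => P l x ∧ Q l x := by
  obtain ⟨c, h⟩ := h
  obtain ⟨c', h'⟩ := h'
  exact ⟨_, fun l => (h l).and (h' l)⟩

theorem US.or (h : US P) (h' : US Q) : US fun l x => P l x ∨ Q l x := by
  obtain ⟨c, h⟩ := h
  obtain ⟨c', h'⟩ := h'
  exact ⟨_, fun l => (h l).or (h' l)⟩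

theorem US.imp' (h : US P) (h' : US Q) : US fun l x => P l x → Q l x := by
  obtain ⟨c, h⟩ := h
  obtain ⟨c', h'⟩ := h'
  exact ⟨_, fun l => (h l).imp (h' l)⟩

theorem US.iff (h : US P) (h' : US Q) : US fun l x => P l x ↔ Q l x := by
  obtain ⟨c, h⟩ := h
  obtain ⟨c', h'⟩ := h'
  exact ⟨_, fun l => (h l).iff (h' l)⟩

theorem US.re {Λ' : Type} (h : US P) (r : Λ' → Λ) : US fun l => P (r l) := h.imp fun _ a l => a (r l)

theorem US.all {κ : Λ → Type} (s : ∀ l, Finset (κ l)) {a : ℕ} (hs : ∀ l, (s l).card ≤ a)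
    {H : ∀ l, κ l → E → Prop} (h : US fun u : Σ l, κ l => H u.1 u.2) :
    US fun l x => ∀ k ∈ s l, H l k x := by
  obtain ⟨c, h⟩ := h
  exact ⟨a * c, fun l => (sa_all _ fun k _ => h ⟨l, k⟩).mono (Nat.mul_le_mul_right _ (hs l))⟩

theorem US.ex {κ : Λ → Type} (s : ∀ l, Finset (κ l)) {a : ℕ} (hs : ∀ l, (s l).card ≤ a)
    {H : ∀ l, κ l → E → Prop} (h : US fun u : Σ l, κ l => H u.1 u.2) :
    US fun l x => ∃ k ∈ s l, H l k x := by
  obtain ⟨c, h⟩ := h
  exact ⟨a * c, fun l => (sa_ex _ fun k _ => h ⟨l, k⟩).mono (Nat.mul_le_mul_right _ (hs l))⟩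

theorem US.all' {κ : Type} [Fintype κ] {H : Λ → κ → E → Prop} (h : US fun u : Λ × κ => H u.1 u.2) :
    US fun l x => ∀ k, H l k x := by
  obtain ⟨c, h⟩ := h
  exact ⟨_, fun l => sa_all' fun k => h (l, k)⟩

theorem US.ex' {κ : Type} [Fintype κ] {H : Λ → κ → E → Prop} (h : US fun u : Λ × κ => H u.1 u.2) :
    US fun l x => ∃ k, H l k x := by
  obtain ⟨c, h⟩ := h
  exact ⟨_, fun l => sa_ex' fun k => h (l, k)⟩

theorem US.comp_aff (h : US P) (ψ : Λ → E' →ᵃ[ℝ] E) : US fun l x => P l (ψ l x) :=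
  h.imp fun _ a l => (a l).comp_aff (ψ l)

end gen

end FS
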